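import Pool.Agent.W495.TB.Stms

/-!
# TB-FLIP (helper636): changing the signs
-/

set_option autoImplicit false
set_option linter.unusedSectionVars false
set_option linter.unusedVariables false

namespace Pool.Agent.W636.TB

open Pool.Agent.W495.TA Pool.Agent.W495.TB

section

variable {G X : Type} [Group G] [Fintype G] [Fintype X] [MulAction G X]

lemma sum_same (s : X → ℤ) (e : X → ℤ) (g : G) (h : ∀ x, s (g • x) = s x) :
    (∑ x, if s x = 1 then e (g • x) else 0) = ∑ x, if s x = 1 then e x else 0 := by
  rw [← Equiv.sum_comp (MulAction.toPerm g) (fun x => if s x = 1 then e x else 0)]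
  refine Finset.sum_congr rfl (fun x _ => ?_)
  simp only [MulAction.toPerm_apply, h]

lemma sum_neg (c : G) (s : X → ℤ) (e : X → ℤ) (hs : ∀ x, s (c • x) = -s x)
    (he : ∀ x, e (c • x) = -e x) (g : G)
    (h : ∀ x, s (g • x) = -s x) :
    (∑ x, if s x = 1 then e (g • x) else 0) = -∑ x, if s x = 1 then e x else 0 := by
  have h1 := sum_same s e (c * g) (fun x => by rw [mul_smul, hs, h]; ring)
  rw [← h1, ← Finset.sum_neg_distrib]
  refine Finset.sum_congr rfl (fun x _ => ?_)
  split_ifs
  · rw [mul_smul, he]; ring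
  · simp

lemma bal_of (c : G) (s : X → ℤ) (hs : IsPartSign G c s) (e : X → ℤ) (he : IsSign c e)
    (r : ℕ) (u : ℤ) (h : (∑ x, if s x = 1 then e x else 0) + r * u = 0) :
    Bal (G := G) e s r u := by
  intro g x0 hx0
  rcases hs.semi g with hg | hg
  · have := sum_same s e g hg
    rw [hg, hx0]
    rw [mul_one]
    have h2 : (∑ x, if s x = 1 then e (g • x) else 0) + r * u = 0 := by
      rw [this]; exact h
    convert h2 using 2
  · have := sum_neg c s e hs.odd he.odd g hg
    rw [hg, hx0]
    have h2 : (∑ x, if s x = 1 then e (g • x) else 0) + r * u * (-1) = 0 := by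
      rw [this]; linarith
    convert h2 using 2

lemma sum_s (c : G) (s : X → ℤ) (hs : IsPartSign G c s) 
    (e : X → ℤ) (he : IsSign c e) :
    ∑ x, s x * e x = 2 * ∑ x, if s x = 1 then e x else 0 := by
  have h1 : ∀ x, s x * e x = (if s x = 1 then e x else 0) + (if s x = -1 then -e x else 0) := by
    intro x
    rcases hs.val x with h | h | h <;> simp [h]
  rw [Finset.sum_congr rfl (fun x _ => h1 x), Finset.sum_add_distrib, two_mul]
  congr 1
  rw [← Equiv.sum_comp (MulAction.toPerm c)]
  refine Finset.sum_congr rfl (fun x _ => ?_)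
  simp only [MulAction.toPerm_apply, hs.odd, he.odd, neg_inj, neg_neg]

lemma exists_neg (c : G) (hcc : c * c = 1) (s : X → ℤ) (hs : IsPartSign G c s) (D : Subgroup G)
    (e : X → ℤ) (he : IsSign c e) (hrel : ∀ g, ∑ x, s x * nf D e x g = 0)
    (hF : (∑ x, if s x = 1 then e x else 0) ≠ 0) :
    ∃ d ∈ D, ∀ x, s (d • x) = -s x := by
  classical
  by_contra hcon
  push Not at hcon
  have hD : ∀ d ∈ D, ∀ x, s (d • x) = s x := by
    intro d hd
    rcases hs.semi d with h | h
    · exact h
    · obtain ⟨x, hx⟩ := hcon d hd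
      exact absurd (h x) hx
  have h1 := hrel 1
  have h2 : ∑ x, s x * nf D e x 1 = ∑ d : G, if d ∈ D then ∑ x, s x * e x else 0 := by
    unfold nf
    simp_rw [Finset.mul_sum]
    rw [Finset.sum_comm]
    refine Finset.sum_congr rfl (fun d _ => ?_)
    by_cases hd : d ∈ D
    · simp only [hd, if_true, one_smul]
      rw [← Equiv.sum_comp (MulAction.toPerm d) (fun x => s x * e x)]
      refine Finset.sum_congr rfl (fun x _ => ?_)
      simp only [MulAction.toPerm_apply, hD d hd]
    · simp [hd]
  rw [h1, sum_s c s hs e he, ← Finset.sum_filter, Finset.sum_const, nsmul_eq_mul] at h2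
  have hc : (Finset.univ.filter (fun d : G => d ∈ D)).card ≠ 0 := by
    rw [Finset.card_ne_zero]
    exact ⟨1, by simp [D.one_mem]⟩
  have hc' : ((Finset.univ.filter (fun d : G => d ∈ D)).card : ℤ) ≠ 0 := by exact_mod_cast hc
  have := mul_ne_zero hc' (mul_ne_zero two_ne_zero hF)
  exact this h2.symm

open Classical in
/-- the difference of two indicator functions -/
noncomputable def hh (d0 : G) (x1 x : X) : ℤ :=
  (if x = x1 then 1 else 0) - (if x = d0 • x1 then 1 else 0)

lemma nf_hh (D : Subgroup G) (d0 : G) (hd0 : d0 ∈ D) (x1 x : X) (g : G) :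
    nf D (hh d0 x1) x g = 0 := by
  classical
  unfold nf hh
  have h1 : ∀ d : G, (if d ∈ D then
      ((if d • g • x = x1 then (1 : ℤ) else 0) - (if d • g • x = d0 • x1 then 1 else 0)) else 0)
      = (if d ∈ D then (if d • g • x = x1 then (1 : ℤ) else 0) else 0)
        - (if d ∈ D then (if d • g • x = d0 • x1 then (1 : ℤ) else 0) else 0) := by
    intro d
    split_ifs <;> simp
  have h2 : (∑ d : G, if d ∈ D then
      ((if d • g • x = x1 then (1 : ℤ) else 0) - (if d • g • x = d0 • x1 then 1 else 0)) else 0) = 0 := by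
    rw [Finset.sum_congr rfl (fun d _ => h1 d), Finset.sum_sub_distrib, sub_eq_zero]
    rw [← Equiv.sum_comp (Equiv.mulLeft d0)
      (fun d => if d ∈ D then (if d • g • x = d0 • x1 then (1 : ℤ) else 0) else 0)]
    refine Finset.sum_congr rfl (fun d _ => ?_)
    have hiff : ((d0 * d) • g • x = d0 • x1) ↔ (d • g • x = x1) := by
      rw [mul_smul, smul_left_cancel_iff]
    simp only [Equiv.coe_mulLeft, Subgroup.mul_mem_cancel_left D hd0, hiff]
  convert h2 using 3

lemma nf_add (D : Subgroup G) (e f : X → ℤ) (a : ℤ) (x : X) (g : G) :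
    nf D (fun z => e z + a * f z) x g = nf D e x g + a * nf D f x g := by
  classical
  unfold nf
  rw [Finset.mul_sum, ← Finset.sum_add_distrib]
  refine Finset.sum_congr rfl (fun d _ => ?_)
  split_ifs <;> simp

lemma abs_sum_le (P : Finset X) (e : X → ℤ) (he : ∀ x, e x = 1 ∨ e x = -1) :
    |∑ x ∈ P, e x| ≤ P.card ∧ ∃ m : ℤ, ∑ x ∈ P, e x = P.card + 2 * m := by
  classical
  constructor
  · refine (Finset.abs_sum_le_sum_abs _ _).trans ?_
    rw [Finset.sum_congr rfl (fun x _ => show |e x| = 1 by rcases he x with h | h <;> simp [h])]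
    simp
  · induction P using Finset.induction_on with
    | empty => exact ⟨0, by simp⟩
    | insert a s ha ih =>
      obtain ⟨m, hm⟩ := ih
      rw [Finset.sum_insert ha, hm, Finset.card_insert_of_notMem ha]
      rcases he a with h | h
      · exact ⟨m, by rw [h]; push_cast; ring⟩
      · exact ⟨m - 1, by rw [h]; push_cast; ring⟩

lemma const_of_sum (P : Finset X) (e : X → ℤ) (he : ∀ x, e x = 1 ∨ e x = -1) (v : ℤ)
    (hv : v = 1 ∨ v = -1) (h : ∑ x ∈ P, e x = P.card * v) : ∀ x ∈ P, e x = v := by
  have h1 : ∑ x ∈ P, (1 - v * e x) = 0 := by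
    rw [Finset.sum_sub_distrib, ← Finset.mul_sum, h]
    rcases hv with h | h <;> subst h <;> simp
  have h2 := (Finset.sum_eq_zero_iff_of_nonneg (fun x _ => by
    rcases hv with hv | hv <;> rcases he x with h | h <;> simp [hv, h])).mp h1
  intro x hx
  have := h2 x hx
  rcases hv with hv | hv <;> rcases he x with h | h <;> simp [hv, h] at this ⊢

theorem flip2 : S_flip2 := by
  classical
  intro G X _ _ _ _ c hcomm hcc hne D ε hε s hs hcard hrel
  set P := Finset.univ.filter (fun x => s x = 1) with hP
  have hPc : Nat.card {x // s x = 1} = P.card := by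
    rw [Nat.card_eq_fintype_card, Fintype.card_subtype]
  rw [hPc] at hcard ⊢
  have hFe : ∀ e : X → ℤ, (∑ x, if s x = 1 then e x else 0) = ∑ x ∈ P, e x := by
    intro e
    rw [hP, Finset.sum_filter]
  set F := ∑ x ∈ P, ε x with hF
  obtain ⟨hFle, m, hm⟩ := abs_sum_le P ε hε.sign
  rw [← hF] at hFle hm
  -- the case where `ε' = ε` works
  have hsimple : (P.card + F.natAbs = 4 ∨ P.card + F.natAbs = 6) → ∃ (ε' : X → ℤ) (r : ℕ) (u : ℤ), IsSign c ε' ∧ (∀ x, nf D ε' x = nf D ε x) ∧
      (P.card + r = 4 ∨ P.card + r = 6) ∧ (u = 1 ∨ u = -1) ∧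
      Bal (G := G) ε' s r u ∧ (0 < r → ∃ d ∈ D, ∀ x, s (d • x) = -s x) := by
    intro h
    refine ⟨ε, F.natAbs, if F ≤ 0 then 1 else -1, hε, fun _ => rfl, h, ?_, ?_, ?_⟩
    · split_ifs <;> simp
    · refine bal_of c s hs ε hε _ _ ?_
      rw [hFe, ← hF]
      split_ifs with h0
      · rw [Int.ofNat_natAbs_of_nonpos h0]; ring
      · rw [Int.natAbs_of_nonneg (by omega)]; ring
    · intro hr
      refine exists_neg c hcc s hs D ε hε hrel ?_
      rw [hFe, ← hF]
      intro h0
      rw [h0] at hr
      simp at hr
  by_cases hbig : P.card = 4 ∧ F.natAbs = 4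
  · obtain ⟨hP4, hF4⟩ := hbig
    have hF0 : F ≠ 0 := by intro h; rw [h] at hF4; simp at hF4
    obtain ⟨v, hv, hFv⟩ : ∃ v : ℤ, (v = 1 ∨ v = -1) ∧ F = P.card * v := by
      rcases Int.natAbs_eq F with h | h
      · exact ⟨1, Or.inl rfl, by rw [h, hF4, hP4]; rfl⟩
      · exact ⟨-1, Or.inr rfl, by rw [h, hF4, hP4]; rfl⟩
    have hεv := const_of_sum P ε hε.sign v hv (by rw [← hF, hFv])
    have hεv' : ∀ x, s x = 1 → ε x = v := fun x hx => hεv x (by rw [hP]; simp [hx])
    have hεv'' : ∀ x, s x = -1 → ε x = -v := by
      intro x hx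
      have h1 : s (c • x) = 1 := by rw [hs.odd, hx]; rfl
      have h2 := hεv' _ h1
      rw [hε.odd] at h2
      linarith
    obtain ⟨d0, hd0, hd0s⟩ := exists_neg c hcc s hs D ε hε hrel (by rw [hFe, ← hF]; exact hF0)
    obtain ⟨x0, hx0⟩ : P.Nonempty := by rw [← Finset.card_pos]; omega
    have hsx0 : s x0 = 1 := (Finset.mem_filter.mp hx0).2
    have hsy : s (d0 • x0) = -1 := by rw [hd0s, hsx0]
    have hccx : ∀ x : X, c • c • x = x := fun x => by rw [← mul_smul, hcc, one_smul]
    have hciff : ∀ x z : X, c • x = z ↔ x = c • z := fun x z =>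
      ⟨fun h => by rw [← h, hccx], fun h => by rw [h, hccx]⟩
    have hsc : s (c • x0) = -1 := by rw [hs.odd, hsx0]
    have hsP : ∀ x, (x ∈ P ↔ s x = 1) := fun x => by rw [hP]; simp
    by_cases hy : d0 • x0 = c • x0
    · let ε' : X → ℤ := fun x => ε x + (-2 * v) * hh d0 x0 x
      have hsum : ∑ x ∈ P, hh d0 x0 x = 1 := by
        unfold hh
        rw [Finset.sum_sub_distrib, Finset.sum_ite_eq', Finset.sum_ite_eq', if_pos hx0, if_neg]
        · rfl
        · rw [hsP, hsy]; decide
      have hsign : IsSign c ε' := by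
        constructor
        · intro x
          simp only [ε', hh]
          by_cases h1 : x = x0
          · subst h1
            have h2 : x ≠ d0 • x := by
              intro h; rw [← h, hsx0] at hsy; norm_num at hsy
            rw [if_pos rfl, if_neg h2, hεv' _ hsx0]
            rcases hv with h | h <;> subst h <;> simp
          · rw [if_neg h1]
            by_cases h2 : x = d0 • x0
            · rw [if_pos h2, h2, hεv'' _ hsy]
              rcases hv with h | h <;> subst h <;> simp
            · rw [if_neg h2]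
              simpa using hε.sign x
        · intro x
          simp only [ε', hh, hε.odd, hy, hciff, hccx]
          ring
      refine ⟨ε', 2, -v, hsign, ?_, Or.inr (by rw [hP4]), ?_, ?_, ?_⟩
      · intro x
        funext g
        simp only [ε']
        rw [nf_add, nf_hh D d0 hd0]
        ring
      · rcases hv with h | h <;> subst h <;> simp
      · refine bal_of c s hs ε' hsign _ _ ?_
        rw [hFe]
        simp only [ε']
        rw [Finset.sum_add_distrib, ← Finset.mul_sum, hsum, ← hF, hFv, hP4]
        push_cast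
        ring
      · intro _
        exact ⟨d0, hd0, hd0s⟩
    · let ε' : X → ℤ := fun x => (ε x + (-2 * v) * hh d0 x0 x) + (2 * v) * hh d0 (c • x0) x
      have hdc : d0 • c • x0 = c • d0 • x0 := by rw [← mul_smul, ← hcomm, mul_smul]
      have hscy : s (c • d0 • x0) = 1 := by rw [hs.odd, hsy]; rfl
      have hsum : ∑ x ∈ P, hh d0 x0 x = 1 := by
        unfold hh
        rw [Finset.sum_sub_distrib, Finset.sum_ite_eq', Finset.sum_ite_eq', if_pos hx0, if_neg]
        · rfl
        · rw [hsP, hsy]; decide
      have hsum2 : ∑ x ∈ P, hh d0 (c • x0) x = -1 := by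
        unfold hh
        rw [Finset.sum_sub_distrib, Finset.sum_ite_eq', Finset.sum_ite_eq', if_neg, if_pos]
        · rfl
        · rw [hsP, hdc, hscy]
        · rw [hsP, hsc]; decide
      have n1 : x0 ≠ d0 • x0 := by
        intro h; rw [← h, hsx0] at hsy; norm_num at hsy
      have n2 : x0 ≠ c • x0 := (hne x0).symm
      have n3 : x0 ≠ c • d0 • x0 := by
        intro h
        exact hy (by rw [h, hccx, ← h])
      have n4 : d0 • x0 ≠ c • d0 • x0 := (hne _).symm
      have n5 : c • x0 ≠ c • d0 • x0 := by
        intro h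
        exact n1 (smul_left_cancel c h)
      have hsign : IsSign c ε' := by
        constructor
        · intro x
          simp only [ε', hh, hdc]
          by_cases h1 : x = x0
          · subst h1
            rw [if_pos rfl, if_neg n1, if_neg n2, if_neg n3, hεv' _ hsx0]
            rcases hv with h | h <;> subst h <;> simp
          · by_cases h2 : x = d0 • x0
            · subst h2
              rw [if_neg n1.symm, if_pos rfl, if_neg hy, if_neg n4, hεv'' _ hsy]
              rcases hv with h | h <;> subst h <;> simp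
            · by_cases h3 : x = c • x0
              · subst h3
                rw [if_neg n2.symm, if_neg (Ne.symm hy), if_pos rfl, if_neg n5, hεv'' _ hsc]
                rcases hv with h | h <;> subst h <;> simp
              · by_cases h4 : x = c • d0 • x0
                · subst h4
                  rw [if_neg n3.symm, if_neg n4.symm, if_neg n5.symm, if_pos rfl, hεv' _ hscy]
                  rcases hv with h | h <;> subst h <;> simp
                · rw [if_neg h1, if_neg h2, if_neg h3, if_neg h4]
                  simpa using hε.sign x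
        · intro x
          simp only [ε', hh, hε.odd, hdc, hciff, hccx]
          ring
      refine ⟨ε', 0, 1, hsign, ?_, Or.inl (by rw [hP4]), Or.inl rfl, ?_, ?_⟩
      · intro x
        funext g
        simp only [ε']
        rw [nf_add, nf_add, nf_hh D d0 hd0, nf_hh D d0 hd0]
        ring
      · refine bal_of c s hs ε' hsign _ _ ?_
        rw [hFe]
        simp only [ε']
        rw [Finset.sum_add_distrib, Finset.sum_add_distrib, ← Finset.mul_sum, ← Finset.mul_sum,
          hsum, hsum2, ← hF, hFv, hP4]
        push_cast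
        ring
      · intro h
        omega
  · apply hsimple
    have h1 : |F| = F.natAbs := Int.abs_eq_natAbs F
    rcases hcard with h3 | h4
    · rw [h3] at hFle hm ⊢
      omega
    · rw [h4] at hFle hm ⊢
      have : F.natAbs ≠ 4 := fun h => hbig ⟨h4, h⟩
      omega

end

end Pool.Agent.W636.TB
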